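import Pool.Agent.W823.QT.Stm

/-!
# MP_26aa9e_pr, project QT, part M1: first core estimate
-/

set_option autoImplicit false

namespace Pool.Agent.W304.QTM1

open MeasureTheory ProbabilityTheory Filter Topology Pool.Agent.W845.Traps Pool.Agent.W823.QT
open scoped ENNReal NNReal

lemma V_eq {d : ℕ} (η : ℕ → (ℕ → Fin d → ℤ) → ℝ≥0∞) (n : ℕ) (a : ℕ → Fin d → ℤ) :
    V η n a = ∑ S ∈ (arcs n).powerset, ∏ e ∈ S, aw η a e := by
  unfold V
  rw [Finset.prod_one_add]

lemma aw_congr {d : ℕ} {η : ℕ → (ℕ → Fin d → ℤ) → ℝ≥0∞} (hη : Loc η) (a a' : ℕ → Fin d → ℤ)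
    (e : ℕ × ℕ) (h : ∀ i, e.1 ≤ i → i < e.2 → a i = a' i) : aw η a e = aw η a' e := by
  unfold aw
  apply hη
  intro i hi
  unfold pos sh
  apply Finset.sum_congr rfl
  intro j hj
  rw [Finset.mem_range] at hj
  exact h _ (by omega) (by omega)

lemma mem_arcs {n : ℕ} {e : ℕ × ℕ} (h : e ∈ arcs n) : e.1 < e.2 ∧ e.2 ≤ n := by
  simp only [arcs, Finset.mem_filter, Finset.mem_product, Finset.mem_range] at h
  omega

lemma prod_congr {d : ℕ} {η : ℕ → (ℕ → Fin d → ℤ) → ℝ≥0∞} (hη : Loc η) {n : ℕ}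
    {S : Finset (ℕ × ℕ)} (hS : S ⊆ arcs n) (a a' : ℕ → Fin d → ℤ)
    (h : ∀ i < n, a i = a' i) : ∏ e ∈ S, aw η a e = ∏ e ∈ S, aw η a' e := by
  apply Finset.prod_congr rfl
  intro e he
  apply aw_congr hη
  intro i _ hi
  exact h i (lt_of_lt_of_le hi (mem_arcs (hS he)).2)

lemma pos_congr {d : ℕ} {n : ℕ} (a a' : ℕ → Fin d → ℤ)
    (h : ∀ i < n, a i = a' i) : pos a n = pos a' n := by
  unfold pos
  apply Finset.sum_congr rfl
  intro i hi
  exact h i (Finset.mem_range.mp hi)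

/-- step (1) -/
lemma step1 (h1 : MEAS_T) (h2 : MIX_T) (h3 : SUML_T) (d : ℕ) (q : Measure (Fin d → ℤ))
    [IsProbabilityMeasure q] (η : ℕ → (ℕ → Fin d → ℤ) → ℝ≥0∞) (hη : Loc η) (n : ℕ)
    (ψ : (Fin d → ℤ) → ℝ≥0∞) (Ψ : ℕ → ℝ≥0∞)
    (hΨ : ∀ m x, ∫⁻ a, ψ (x + pos a m) ∂(iid q) ≤ Ψ m) (S : Finset (ℕ × ℕ)) (hS : S ⊆ arcs n) :
    ∫⁻ a, (∏ e ∈ S, aw η a e) * ψ (pos a n) ∂(iid q) ≤
      ∫⁻ a, (∏ e ∈ S, aw η a e) * Ψ (free n S) ∂(iid q) := by
  set U : Finset ℕ := (Finset.range n).filter fun k => ∀ e ∈ S, ¬ (e.1 ≤ k ∧ k < e.2) with hU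
  have hcard : U.card = free n S := rfl
  have hUn : U ⊆ Finset.range n := Finset.filter_subset _ _
  have hm : Measurable (fun a : ℕ → Fin d → ℤ => (∏ e ∈ S, aw η a e) * ψ (pos a n)) := by
    apply h1 d n
    intro a b hab
    rw [prod_congr hη hS a b hab, pos_congr a b hab]
  rw [h2 d q U _ hm]
  apply lintegral_mono
  intro a
  have e1 : ∀ b : ℕ → Fin d → ℤ,
      (∏ e ∈ S, aw η (fun i => if i ∈ U then b i else a i) e) *
        ψ (pos (fun i => if i ∈ U then b i else a i) n) =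
      (∏ e ∈ S, aw η a e) * ψ (∑ i ∈ Finset.range n \ U, a i + ∑ i ∈ U, b i) := by
    intro b
    congr 1
    · apply Finset.prod_congr rfl
      intro e he
      apply aw_congr hη
      intro i hi1 hi2
      have : i ∉ U := by
        intro hiU
        rw [hU, Finset.mem_filter] at hiU
        exact hiU.2 e he ⟨hi1, hi2⟩
      simp only [this, if_false]
    · congr 1
      unfold pos
      rw [← Finset.sum_sdiff hUn]
      congr 1
      · apply Finset.sum_congr rfl
        intro i hi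
        rw [Finset.mem_sdiff] at hi
        simp only [hi.2, if_false]
      · apply Finset.sum_congr rfl
        intro i hi
        simp only [hi, if_true]
  simp only [e1]
  have hm2 : Measurable (fun b : ℕ → Fin d → ℤ =>
      ψ (∑ i ∈ Finset.range n \ U, a i + ∑ i ∈ U, b i)) := by
    apply h1 d n
    intro b b' hb
    have : ∑ i ∈ U, b i = ∑ i ∈ U, b' i := by
      apply Finset.sum_congr rfl
      intro i hi
      exact hb i (Finset.mem_range.mp (hUn hi))
    rw [this]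
  rw [lintegral_const_mul _ hm2]
  gcongr
  have := h3 d q U (fun y => ψ (∑ i ∈ Finset.range n \ U, a i + y))
  rw [this, hcard]
  exact hΨ _ _

lemma free_anti (n : ℕ) {S T : Finset (ℕ × ℕ)} (h : S ⊆ T) : free n T ≤ free n S := by
  unfold free
  apply Finset.card_le_card
  intro k hk
  rw [Finset.mem_filter] at hk ⊢
  exact ⟨hk.1, fun e he => hk.2 e (h he)⟩

theorem main (h1 : MEAS_T) (h2 : MIX_T) (h3 : SUML_T) (h4 : DOM_T) : M1_T := by
  intro d q _ η ε hη hle hε n ψ Ψ hΨ hψ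
  have hmV : Measurable (V η n) := by
    apply h1 d n
    intro a b hab
    rw [V_eq, V_eq]
    apply Finset.sum_congr rfl
    intro S hS
    exact prod_congr hη (Finset.mem_powerset.mp hS) a b hab
  have hP0 : ∏ e ∈ arcs n, (1 + lw ε e) ≠ 0 := by
    rw [Finset.prod_ne_zero_iff]
    intro e _ h
    rw [add_eq_zero] at h
    exact one_ne_zero h.1
  have hPt : ∏ e ∈ arcs n, (1 + lw ε e) ≠ ∞ := by
    apply ENNReal.prod_ne_top
    intro e _
    exact ENNReal.add_ne_top.mpr ⟨ENNReal.one_ne_top, hε _⟩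
  calc ∫⁻ a, V η n a * ψ (pos a n) ∂(iid q)
      = ∫⁻ a, ∑ S ∈ (arcs n).powerset, (∏ e ∈ S, aw η a e) * ψ (pos a n) ∂(iid q) := by
        apply lintegral_congr
        intro a
        rw [V_eq, Finset.sum_mul]
    _ = ∑ S ∈ (arcs n).powerset, ∫⁻ a, (∏ e ∈ S, aw η a e) * ψ (pos a n) ∂(iid q) := by
        apply lintegral_finsetSum
        intro S hS
        apply h1 d n
        intro a b hab
        rw [prod_congr hη (Finset.mem_powerset.mp hS) a b hab, pos_congr a b hab]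
    _ ≤ ∑ S ∈ (arcs n).powerset, ∫⁻ a, (∏ e ∈ S, aw η a e) * Ψ (free n S) ∂(iid q) := by
        apply Finset.sum_le_sum
        intro S hS
        exact step1 h1 h2 h3 d q η hη n ψ Ψ hψ S (Finset.mem_powerset.mp hS)
    _ = ∫⁻ a, ∑ S ∈ (arcs n).powerset, (∏ e ∈ S, aw η a e) * Ψ (free n S) ∂(iid q) := by
        symm
        apply lintegral_finsetSum
        intro S hS
        apply h1 d n
        intro a b hab
        rw [prod_congr hη (Finset.mem_powerset.mp hS) a b hab]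
    _ ≤ ∫⁻ a, EE ε n (fun S => Ψ (free n S)) * V η n a ∂(iid q) := by
        apply lintegral_mono
        intro a
        have hd := h4 (arcs n) (aw η a) (lw ε) (fun e _ => hle _ _) (fun e _ => hε _)
          (fun S => Ψ (free n S)) (fun S T hST => hΨ (free_anti n hST))
        unfold EE wsum V
        show _ ≤ _ / _ * _
        rw [← ENNReal.mul_div_right_comm, ENNReal.le_div_iff_mul_le (Or.inl hP0) (Or.inl hPt)]
        exact hd
    _ = EE ε n (fun S => Ψ (free n S)) * A q η n := by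
        rw [lintegral_const_mul _ hmV]
        rfl
    _ = A q η n * EE ε n (fun S => Ψ (free n S)) := mul_comm _ _

end Pool.Agent.W304.QTM1
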